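import Pool.Agent.Helper19.Un.D4Stmts
import Pool.Agent.Helper19.Un.Alg

/-!
# DUP: the upper bound for the sum over all cusps
-/

set_option autoImplicit false

namespace Pool.Agent.Helper19.Un

open MeasureTheory Topology
open scoped ComplexConjugate

theorem du_s3 : Real.sqrt 3 * Real.sqrt 3 = 3 := Real.mul_self_sqrt (by norm_num)

theorem du_om2 : om * om = -1 - om := by
  apply Complex.ext
  · simp [om]
    linear_combination (-(1 / 4 : ℝ)) * du_s3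
  · simp [om]
    ring

theorem du_th : th = 1 + 2 * om := by
  apply Complex.ext
  · simp [om, th]
    norm_num
  · simp [om, th]
    ring

theorem du_th2 : th * th = -3 := by
  apply Complex.ext
  · simp [th]
  · simp [th]

theorem du_th_ne : th ≠ 0 := by
  intro h
  have := du_th2
  rw [h] at this
  norm_num at this

theorem du_nth : ‖th‖ ^ 2 = 3 := by
  rw [← Complex.normSq_eq_norm_sq, Complex.normSq_apply]
  simp [th]

theorem du_ns (a b : ℤ) : ‖(a + b * om : ℂ)‖ ^ 2 = (a ^ 2 - a * b + b ^ 2 : ℝ) := by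
  rw [← Complex.normSq_eq_norm_sq, Complex.normSq_apply]
  simp [om]
  linear_combination (1 / 4 * (b : ℝ) ^ 2) * du_s3

/-- explicit inverse of a unit -/
theorem du_inv {u v : ℤ} (h : u ^ 2 - u * v + v ^ 2 = 1) :
    ((u - v : ℤ) + (-v : ℤ) * om : ℂ) * (u + v * om) = 1 := by
  have h' : ((u : ℂ) ^ 2 - u * v + v ^ 2) = 1 := by exact_mod_cast h
  push_cast
  linear_combination h' - (v : ℂ) ^ 2 * du_om2

theorem du_eis_mul {x y : ℂ} (hx : x ∈ Eis) (hy : y ∈ Eis) : x * y ∈ Eis := by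
  obtain ⟨a, b, rfl⟩ := hx
  obtain ⟨c, d, rfl⟩ := hy
  refine ⟨a * c - b * d, a * d + b * c - b * d, ?_⟩
  push_cast
  linear_combination (b * d : ℂ) * du_om2

theorem du_D4_smul {x : ℂ} (hx : x ∈ Eis) {b : E 2} (hb : b ∈ D4L) : x • b ∈ D4L := by
  obtain ⟨X, hX, Y, hY, k, hk, h1, h2, h3⟩ := hb
  refine ⟨x * X, du_eis_mul hx hX, x * Y, du_eis_mul hx hY, x * k, du_eis_mul hx hk, ?_, ?_, ?_⟩
  · linear_combination x * h1
  · rw [PiLp.smul_apply, h2, smul_eq_mul]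
  · rw [PiLp.smul_apply, h3, smul_eq_mul]
    ring

/-- the formula for the value of a cusp vector -/
theorem du_form {p : Pt 2} (hp : p ∈ SD 2) {c α : ℂ} {β : E 2} {w : V 2}
    (hw : th • w = ((c * α, c • β, c) : V 2)) (hiso : 2 * α.re + ‖β‖ ^ 2 = 0) :
    3 / 2 * uval w p = ‖c‖ ^ 2 * (3 * (2 / 3 * ‖p.2 - β‖ ^ 2 + 2 / 3 * hgt p) ^ 2 +
      4 * (2 / Real.sqrt 3 * (p.1 + inner ℂ β p.2 + conj α).im) ^ 2) / (16 * (2 / 3 * hgt p)) := by
  have hH : 0 < hgt p := hp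
  have h1 : uval (th • w) p = 3 * uval w p := by
    rw [uval_smul, du_nth]
  have h2 : uval w p = 1 / 3 * uval (th • w) p := by
    rw [h1]
    ring
  have h3 : herm (vec p) (th • w) = conj c * (p.1 + inner ℂ β p.2 + conj α) := by
    rw [hw]
    simp only [herm, vec, inner_smul_left, map_mul, one_mul]
    ring
  have h4 : ‖p.1 + inner ℂ β p.2 + conj α‖ ^ 2 = ((p.1 + inner ℂ β p.2 + conj α).re) ^ 2 +
      ((p.1 + inner ℂ β p.2 + conj α).im) ^ 2 := by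
    rw [← Complex.normSq_eq_norm_sq, Complex.normSq_apply]
    ring
  have h5 : (p.1 + inner ℂ β p.2 + conj α).re = -(hgt p + ‖p.2 - β‖ ^ 2) / 2 := by
    have h6 : ‖p.2 - β‖ ^ 2 = ‖p.2‖ ^ 2 - 2 * (inner ℂ β p.2 : ℂ).re + ‖β‖ ^ 2 := by
      have := norm_sub_sq (𝕜 := ℂ) β p.2
      rw [norm_sub_rev] at this
      rw [this]
      simp only [RCLike.re_eq_complex_re]
      ring
    rw [h6]
    simp only [Complex.add_re, Complex.conj_re]
    unfold hgt
    linarith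
  rw [h2]
  unfold uval
  rw [h3, norm_mul, mul_pow, RCLike.norm_conj, h4, h5]
  have h7 : Real.sqrt 3 ^ 2 = 3 := Real.sq_sqrt (by norm_num)
  have h8 : (2 / Real.sqrt 3 * (p.1 + inner ℂ β p.2 + conj α).im) ^ 2 =
      4 / 3 * ((p.1 + inner ℂ β p.2 + conj α).im) ^ 2 := by
    rw [mul_pow, div_pow, h7]
    ring
  rw [h8]
  field_simp
  ring

theorem du_xc_sub (a b : E 2) (i : Fin 4) : xc (a - b) i = xc a i - xc b i := by
  unfold xc
  rw [inner_sub_right, Complex.sub_re]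
  ring

/-- the vector with coordinates `n` -/
noncomputable def duB (n : Fin 4 → ℤ) : E 2 := ∑ i, (n i : ℝ) • eD i

theorem du_coord (hI : ST_DISO) {b : E 2} (hb : b ∈ D4L) : ∃ n : Fin 4 → ℤ, Even (∑ i, n i) ∧ b = duB n ∧
    2 / 3 * ‖duB n‖ ^ 2 = ∑ i, (n i : ℝ) ^ 2 ∧ ∀ ζ : E 2, 2 / 3 * ‖ζ - duB n‖ ^ 2 = sq (xc ζ) n := by
  obtain ⟨-, h2, h3, h4⟩ := hI
  obtain ⟨n, hn, he⟩ := (h4 b).1 hb
  have hbn : b = duB n := by
    conv_lhs => rw [h2 b]
    unfold duB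
    apply Finset.sum_congr rfl
    intro i _
    rw [hn i]
  refine ⟨n, he, hbn, ?_, ?_⟩
  · rw [← hbn, h3]
    apply Finset.sum_congr rfl
    intro i _
    rw [hn i]
  · intro ζ
    rw [← hbn, h3]
    unfold sq
    apply Finset.sum_congr rfl
    intro i _
    rw [du_xc_sub, hn i]

/-- normal form of the cusp vectors with given third coordinate -/
theorem du_class (hI : ST_DISO) (hO : ST_DORB) {τ : ℂ} (hτ : τ ≠ 0) {u v : ℤ}
    (huv : u ^ 2 - u * v + v ^ 2 = 1) {w : V 2} (hw : w ∈ Orb MD4) (hc : th * w.2.2 = (u + v * om) * τ) :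
    ∃ (n : Fin 4 → ℤ) (x y : ℤ), Even (∑ i, n i) ∧ 2 / 3 * ‖duB n‖ ^ 2 = ∑ i, (n i : ℝ) ^ 2 ∧
      (∀ ζ : E 2, 2 / 3 * ‖ζ - duB n‖ ^ 2 = sq (xc ζ) n) ∧
      th • w = ((((u + v * om) * τ) * (th / τ * (x + y * om)), ((u + v * om) * τ) • (τ⁻¹ • duB n), (u + v * om) * τ) : V 2) ∧
      2 * (th / τ * (x + y * om)).re + ‖τ⁻¹ • duB n‖ ^ 2 = 0 := by
  obtain ⟨⟨⟨a', ha', h1⟩, h2, h3⟩, hiso, -⟩ := hO.1 w hw
  have hinv := du_inv huv
  have hei : ((u - v : ℤ) + (-v : ℤ) * om : ℂ) ∈ Eis := ⟨u - v, -v, by push_cast; ring⟩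
  obtain ⟨x, y, hxy⟩ := du_eis_mul hei ha'
  obtain ⟨n, hn1, hn2, hn3, hn4⟩ := du_coord hI (du_D4_smul hei h2)
  have hcomp : th • w = ((((u + v * om) * τ) * (th / τ * (x + y * om)), ((u + v * om) * τ) • (τ⁻¹ • duB n),
      (u + v * om) * τ) : V 2) := by
    refine Prod.ext ?_ (Prod.ext ?_ ?_)
    · show (th • w).1 = _
      rw [h1, ← hxy]
      field_simp
      linear_combination (-(th * a' : ℂ)) * hinv
    · show (th • w).2.1 = _
      rw [← hn2, smul_smul, smul_smul]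
      have : (u + v * om) * τ * τ⁻¹ * ((u - v : ℤ) + (-v : ℤ) * om : ℂ) = 1 := by
        field_simp
        linear_combination hinv
      rw [this, one_smul]
    · show th * w.2.2 = _
      exact hc
  refine ⟨n, x, y, hn1, hn3, hn4, hcomp, ?_⟩
  have h5 : herm (th • w) (th • w) = 0 := by
    rw [herm_smul_left, herm_smul_right, hiso]
    ring
  have h6 := congrArg Complex.re h5
  rw [herm_self_re, Complex.zero_re, hcomp] at h6
  simp only at h6
  have hc0 : (u + v * om : ℂ) * τ ≠ 0 := by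
    refine mul_ne_zero ?_ hτ
    intro h
    rw [h, mul_zero] at hinv
    exact zero_ne_one hinv
  have h7 : (((u + v * om) * τ * (th / τ * (x + y * om)) * conj ((u + v * om) * τ : ℂ))).re =
      ‖(u + v * om : ℂ) * τ‖ ^ 2 * (th / τ * (x + y * om)).re := by
    have e : ((u + v * om) * τ * (th / τ * (x + y * om)) * conj ((u + v * om) * τ : ℂ)) =
      ((‖(u + v * om : ℂ) * τ‖ ^ 2 : ℝ) : ℂ) * (th / τ * (x + y * om)) := by
      have := Complex.mul_conj' ((u + v * om : ℂ) * τ)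
      push_cast
      rw [← this]
      ring
    rw [e, Complex.re_ofReal_mul]
  rw [h7, norm_smul, mul_pow] at h6
  have h8 : ‖(u + v * om : ℂ) * τ‖ ^ 2 ≠ 0 := pow_ne_zero 2 (norm_ne_zero_iff.2 hc0)
  have h9 : ‖(u + v * om : ℂ) * τ‖ ^ 2 * (2 * (th / τ * (x + y * om)).re + ‖τ⁻¹ • duB n‖ ^ 2) = 0 := by
    linarith
  exact (mul_eq_zero.1 h9).resolve_left h8

/-- value of a vector in a class -/
theorem du_val {p : Pt 2} (hp : p ∈ SD 2) {τ : ℂ} (hτ : τ ≠ 0) {u v : ℤ}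
    (huv : u ^ 2 - u * v + v ^ 2 = 1) {w : V 2} {n : Fin 4 → ℤ} {α : ℂ}
    (hζ : ∀ ζ : E 2, 2 / 3 * ‖ζ - duB n‖ ^ 2 = sq (xc ζ) n)
    (hw : th • w = ((((u + v * om) * τ) * α, ((u + v * om) * τ) • (τ⁻¹ • duB n), (u + v * om) * τ) : V 2))
    (hiso : 2 * α.re + ‖τ⁻¹ • duB n‖ ^ 2 = 0) :
    3 / 2 * uval w p = ‖τ‖ ^ 2 * (3 * (sq (xc (τ • p.2)) n / ‖τ‖ ^ 2 + 2 / 3 * hgt p) ^ 2 +
      4 * (2 / Real.sqrt 3 * (p.1 + inner ℂ (τ⁻¹ • duB n) p.2).im - 2 / Real.sqrt 3 * α.im) ^ 2) /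
      (16 * (2 / 3 * hgt p)) := by
  rw [du_form hp hw hiso]
  have h1 : ‖(u + v * om : ℂ) * τ‖ ^ 2 = ‖τ‖ ^ 2 := by
    rw [norm_mul, mul_pow, du_ns]
    have : (u ^ 2 - u * v + v ^ 2 : ℝ) = 1 := by exact_mod_cast huv
    rw [this, one_mul]
  have hτ2 : ‖τ‖ ^ 2 ≠ 0 := pow_ne_zero 2 (norm_ne_zero_iff.2 hτ)
  have h2 : 2 / 3 * ‖p.2 - τ⁻¹ • duB n‖ ^ 2 = sq (xc (τ • p.2)) n / ‖τ‖ ^ 2 := by
    rw [← hζ (τ • p.2)]
    have e : τ • p.2 - duB n = τ • (p.2 - τ⁻¹ • duB n) := by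
      rw [smul_sub, smul_smul, mul_inv_cancel₀ hτ, one_smul]
    rw [e, norm_smul, mul_pow]
    field_simp
  have h3 : 2 / Real.sqrt 3 * (p.1 + inner ℂ (τ⁻¹ • duB n) p.2 + conj α).im =
      2 / Real.sqrt 3 * (p.1 + inner ℂ (τ⁻¹ • duB n) p.2).im - 2 / Real.sqrt 3 * α.im := by
    rw [Complex.add_im, Complex.conj_im]
    ring
  rw [h1, h2, h3]

theorem du_thre (x y : ℝ) : (th * (x + y * om)).re = -(3 / 2 * y) := by
  simp [th, om]
  linear_combination ((1 / 2 : ℝ) * y) * du_s3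

theorem du_thim (x y : ℝ) : (th * (x + y * om)).im = Real.sqrt 3 * (x - y / 2) := by
  simp [th, om]
  ring

/-- counting lemma -/
theorem du_sum {A G : Type} [Nonempty G] (F : Finset A) (P : A → Prop) [DecidablePred P] (f : A → ℝ) (T : G → ℝ)
    (Q : G → Prop) (Ψ : G → V 2) (φ : A → V 2) (hφ : Function.Injective φ)
    (h : ∀ w, P w → ∃ g, Q g ∧ f w = T g ∧ φ w = Ψ g) (B : ℝ)
    (hB : ∀ H : Finset G, (∀ g ∈ H, Q g) → ∑ g ∈ H, T g ≤ B) : ∑ w ∈ F.filter P, f w ≤ B := by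
  classical
  have h' : ∀ w, ∃ g, P w → (Q g ∧ f w = T g ∧ φ w = Ψ g) := by
    intro w
    by_cases hw : P w
    · obtain ⟨g, hg⟩ := h w hw
      exact ⟨g, fun _ => hg⟩
    · exact ⟨Classical.arbitrary G, fun hw' => absurd hw' hw⟩
  choose g hg using h'
  have hinj : Set.InjOn g (F.filter P : Set A) := by
    intro a ha b hb hab
    have ha' := (Finset.mem_filter.1 ha).2
    have hb' := (Finset.mem_filter.1 hb).2
    apply hφ
    rw [(hg a ha').2.2, (hg b hb').2.2, hab]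
  have e : ∑ w ∈ F.filter P, f w = ∑ x ∈ (F.filter P).image g, T x := by
    rw [Finset.sum_image hinj]
    apply Finset.sum_congr rfl
    intro w hw
    exact (hg w (Finset.mem_filter.1 hw).2).2.1
  rw [e]
  apply hB
  intro x hx
  obtain ⟨w, hw, rfl⟩ := Finset.mem_image.1 hx
  exact (hg w (Finset.mem_filter.1 hw).2).1

/-- units as pairs -/
def duU : Finset (ℤ × ℤ) := {(1, 0), (-1, 0), (0, 1), (0, -1), (1, 1), (-1, -1)}

theorem duU_spec {e : ℤ × ℤ} (he : e ∈ duU) : e.1 ^ 2 - e.1 * e.2 + e.2 ^ 2 = 1 := by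
  revert e
  decide

theorem duU_mem {u v : ℤ} (h : u ^ 2 - u * v + v ^ 2 = 1) : (u, v) ∈ duU := by
  have h1 : (2 * u - v) ^ 2 + 3 * v ^ 2 = 4 := by linear_combination 4 * h
  have hv : v ^ 2 ≤ 1 := by nlinarith [sq_nonneg (2 * u - v)]
  have h2 : (2 * v - u) ^ 2 + 3 * u ^ 2 = 4 := by linear_combination 4 * h
  have hu : u ^ 2 ≤ 1 := by nlinarith [sq_nonneg (2 * v - u)]
  have hv1 : -1 ≤ v := by nlinarith
  have hv2 : v ≤ 1 := by nlinarith
  have hu1 : -1 ≤ u := by nlinarith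
  have hu2 : u ≤ 1 := by nlinarith
  interval_cases u <;> interval_cases v <;> first | (exfalso; revert h; decide) | decide

/-- small norms -/
theorem du_small {x y : ℤ} (h0 : 0 < x ^ 2 - x * y + y ^ 2) (h7 : x ^ 2 - x * y + y ^ 2 < 7) :
    ∃ e ∈ duU, (x = e.1 ∧ y = e.2) ∨ (x = e.1 - 2 * e.2 ∧ y = 2 * e.1 - e.2) ∨ (x = 2 * e.1 ∧ y = 2 * e.2) := by
  have h1 : (2 * x - y) ^ 2 + 3 * y ^ 2 < 28 := by nlinarith
  have hv : y ^ 2 < 16 := by nlinarith [sq_nonneg (2 * x - y)]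
  have h2 : (2 * y - x) ^ 2 + 3 * x ^ 2 < 28 := by nlinarith
  have hu : x ^ 2 < 16 := by nlinarith [sq_nonneg (2 * y - x)]
  have hv1 : -4 < y := by nlinarith
  have hv2 : y < 4 := by nlinarith
  have hu1 : -4 < x := by nlinarith
  have hu2 : x < 4 := by nlinarith
  interval_cases x <;> interval_cases y <;> first | (exfalso; revert h0; decide) | (exfalso; revert h7; decide) | decide

/-- the contribution of a class -/
theorem du_type (hI : ST_DISO) (hO : ST_DORB) {p : Pt 2} (hp : p ∈ SD 2) {τ : ℂ} (hτ : τ ≠ 0) {e : ℤ × ℤ}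
    (he : e ∈ duU) (Y : (Fin 4 → ℤ) → ℤ → ℝ) (D : (Fin 4 → ℤ) → ℝ) (s : ℝ) (Q' : (Fin 4 → ℤ) → Prop)
    (hY : ∀ (n : Fin 4 → ℤ) (x y : ℤ), 2 / 3 * ‖duB n‖ ^ 2 = ∑ i, (n i : ℝ) ^ 2 →
      2 * (th / τ * (x + y * om)).re + ‖τ⁻¹ • duB n‖ ^ 2 = 0 →
      (y : ℝ) = Y n x ∧ 2 / Real.sqrt 3 * (th / τ * (x + y * om)).im = D n + s * x ∧ Q' n)
    (B : ℝ) (hB : ∀ H : Finset ((Fin 4 → ℤ) × ℤ), (∀ g ∈ H, Even (∑ i, g.1 i) ∧ Q' g.1) →
      ∑ g ∈ H, max 0 (6 / 5 - ‖τ‖ ^ 2 * (3 * (sq (xc (τ • p.2)) g.1 / ‖τ‖ ^ 2 + 2 / 3 * hgt p) ^ 2 +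
        4 * (2 / Real.sqrt 3 * (p.1 + inner ℂ (τ⁻¹ • duB g.1) p.2).im - D g.1 + s * g.2) ^ 2) /
        (16 * (2 / 3 * hgt p))) ≤ B)
    (F : Finset (Orb MD4)) [DecidablePred fun w : Orb MD4 => th * (w : V 2).2.2 = (e.1 + e.2 * om) * τ] :
    ∑ w ∈ F.filter (fun w : Orb MD4 => th * (w : V 2).2.2 = (e.1 + e.2 * om) * τ),
      max 0 (6 / 5 - 3 / 2 * uval (w : V 2) p) ≤ B := by
  apply du_sum F (fun w : Orb MD4 => th * (w : V 2).2.2 = (e.1 + e.2 * om) * τ) _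
    (fun g : (Fin 4 → ℤ) × ℤ => max 0 (6 / 5 - ‖τ‖ ^ 2 * (3 * (sq (xc (τ • p.2)) g.1 / ‖τ‖ ^ 2 + 2 / 3 * hgt p) ^ 2 +
        4 * (2 / Real.sqrt 3 * (p.1 + inner ℂ (τ⁻¹ • duB g.1) p.2).im - D g.1 + s * g.2) ^ 2) /
        (16 * (2 / 3 * hgt p))))
    (fun g => Even (∑ i, g.1 i) ∧ Q' g.1)
    (fun g => ((((e.1 + e.2 * om) * τ) * (th / τ * (((-g.2 : ℤ) : ℂ) + ((Y g.1 (-g.2) : ℝ) : ℂ) * om)),
      ((e.1 + e.2 * om) * τ) • (τ⁻¹ • duB g.1), (e.1 + e.2 * om) * τ) : V 2))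
    (fun w : Orb MD4 => th • (w : V 2)) _ _ B hB
  · intro a b hab
    apply Subtype.ext
    exact smul_right_injective (V 2) du_th_ne hab
  · intro w hw
    obtain ⟨n, x, y, hn1, hn2, hn3, hn4, hn5⟩ := du_class hI hO hτ (duU_spec he) w.2 hw
    obtain ⟨hy1, hy2, hy3⟩ := hY n x y hn2 hn5
    refine ⟨(n, -x), ⟨hn1, hy3⟩, ?_, ?_⟩
    · rw [du_val hp hτ (duU_spec he) hn3 hn4 hn5]
      congr 3
      have e1 : 2 / Real.sqrt 3 * (p.1 + inner ℂ (τ⁻¹ • duB n) p.2).im - 2 / Real.sqrt 3 * (th / τ * (x + y * om)).im =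
        2 / Real.sqrt 3 * (p.1 + inner ℂ (τ⁻¹ • duB n) p.2).im - D n + s * ((-x : ℤ) : ℝ) := by
        rw [hy2]
        push_cast
        ring
      rw [e1]
    · show th • (w : V 2) = _
      rw [hn4]
      have e2 : ((y : ℤ) : ℂ) = ((Y n (- -x) : ℝ) : ℂ) := by
        rw [neg_neg, ← hy1]
        norm_cast
      simp only [neg_neg] at e2 ⊢
      rw [e2]

theorem du_par (a : ℤ) : (Even a ∧ ∃ m, a ^ 2 = 4 * m) ∨ (Odd a ∧ ∃ m, a ^ 2 = 4 * m + 1) := by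
  rcases Int.even_or_odd a with h | h
  · left
    refine ⟨h, ?_⟩
    obtain ⟨k, rfl⟩ := h
    exact ⟨k ^ 2, by ring⟩
  · right
    refine ⟨h, ?_⟩
    obtain ⟨k, rfl⟩ := h
    exact ⟨k ^ 2 + k, by ring⟩

theorem du_par4 (n : Fin 4 → ℤ) (y : ℤ) (h : ∑ i, n i ^ 2 = 4 * y) : (∀ i, Even (n i)) ∨ ∀ i, Odd (n i) := by
  rw [Fin.sum_univ_four] at h
  rcases du_par (n 0) with ⟨h0, m0, e0⟩ | ⟨h0, m0, e0⟩ <;> rcases du_par (n 1) with ⟨h1, m1, e1⟩ | ⟨h1, m1, e1⟩ <;>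
    rcases du_par (n 2) with ⟨h2, m2, e2⟩ | ⟨h2, m2, e2⟩ <;> rcases du_par (n 3) with ⟨h3, m3, e3⟩ | ⟨h3, m3, e3⟩ <;>
    first
    | (left; intro i; fin_cases i <;> assumption)
    | (right; intro i; fin_cases i <;> assumption)
    | (exfalso; omega)

theorem du_t1 (hI : ST_DISO) (hO : ST_DORB) (h1 : ST_T1) {p : Pt 2} (hp : p ∈ SD 2) (hy : 3 / 2 ≤ hgt p)
    {e : ℤ × ℤ} (he : e ∈ duU) (F : Finset (Orb MD4))
    [DecidablePred fun w : Orb MD4 => th * (w : V 2).2.2 = (e.1 + e.2 * om) * (1 : ℂ)] :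
    ∑ w ∈ F.filter (fun w : Orb MD4 => th * (w : V 2).2.2 = (e.1 + e.2 * om) * (1 : ℂ)),
      max 0 (6 / 5 - 3 / 2 * uval (w : V 2) p) ≤ 594 / 125 := by
  have h3 : Real.sqrt 3 ≠ 0 := by positivity
  apply du_type hI hO hp one_ne_zero he (fun n _ => (∑ i, (n i : ℝ) ^ 2) / 2) (fun n => -(∑ i, (n i : ℝ) ^ 2) / 2) 2
    (fun _ => True)
  · intro n x y hn hiso
    have e1 : (th / 1 * ((x : ℂ) + y * om)) = th * (((x : ℝ) : ℂ) + ((y : ℝ) : ℂ) * om) := by
      rw [div_one]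
      norm_cast
    rw [e1, du_thre, inv_one, one_smul] at hiso
    have hyq : (y : ℝ) = (∑ i, (n i : ℝ) ^ 2) / 2 := by linarith
    refine ⟨hyq, ?_, trivial⟩
    rw [e1, du_thim, hyq]
    field_simp
    ring
  · intro H hH
    have := h1 (2 / 3 * hgt p) (xc ((1 : ℂ) • p.2))
      (fun n => 2 / Real.sqrt 3 * (p.1 + inner ℂ ((1 : ℂ)⁻¹ • duB n) p.2).im - -(∑ i, (n i : ℝ) ^ 2) / 2)
      (by linarith) H (fun g hg => (hH g hg).1)
    simpa using this

theorem du_t3 (hI : ST_DISO) (hO : ST_DORB) (h1 : ST_T3) {p : Pt 2} (hp : p ∈ SD 2) (hy : 3 / 2 ≤ hgt p)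
    {e : ℤ × ℤ} (he : e ∈ duU) (F : Finset (Orb MD4))
    [DecidablePred fun w : Orb MD4 => th * (w : V 2).2.2 = (e.1 + e.2 * om) * th] :
    ∑ w ∈ F.filter (fun w : Orb MD4 => th * (w : V 2).2.2 = (e.1 + e.2 * om) * th),
      max 0 (6 / 5 - 3 / 2 * uval (w : V 2) p) ≤ if 2 / 3 * hgt p < 11 / 5 then 8 / 5 else 0 := by
  have h3 : Real.sqrt 3 ≠ 0 := by positivity
  apply du_type hI hO hp du_th_ne he (fun n x => 2 * x + (∑ i, (n i : ℝ) ^ 2) / 2) (fun n => (∑ i, (n i : ℝ) ^ 2) / 2) 2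
    (fun _ => True)
  · intro n x y hn hiso
    have e1 : (th / th * ((x : ℂ) + y * om)) = (((x : ℝ) : ℂ) + ((y : ℝ) : ℂ) * om) := by
      rw [div_self du_th_ne, one_mul]
      norm_cast
    have e2 : ((((x : ℝ) : ℂ) + ((y : ℝ) : ℂ) * om)).re = x - y / 2 := by
      simp [om]
      ring
    have e3 : ((((x : ℝ) : ℂ) + ((y : ℝ) : ℂ) * om)).im = y * (Real.sqrt 3 / 2) := by
      simp [om]
    rw [e1, e2, norm_smul, mul_pow, norm_inv, inv_pow, du_nth] at hiso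
    have hyq : (y : ℝ) = 2 * x + (∑ i, (n i : ℝ) ^ 2) / 2 := by linarith
    refine ⟨hyq, ?_, trivial⟩
    rw [e1, e3, hyq]
    field_simp
    ring
  · intro H hH
    have := h1 (2 / 3 * hgt p) (xc (th • p.2))
      (fun n => 2 / Real.sqrt 3 * (p.1 + inner ℂ (th⁻¹ • duB n) p.2).im - (∑ i, (n i : ℝ) ^ 2) / 2)
      (by linarith) H (fun g hg => (hH g hg).1)
    rw [du_nth]
    exact this

theorem du_t4 (hI : ST_DISO) (hO : ST_DORB) (h1 : ST_T4) {p : Pt 2} (hp : p ∈ SD 2) (hy : 3 / 2 ≤ hgt p)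
    {e : ℤ × ℤ} (he : e ∈ duU) (F : Finset (Orb MD4))
    [DecidablePred fun w : Orb MD4 => th * (w : V 2).2.2 = (e.1 + e.2 * om) * (2 : ℂ)] :
    ∑ w ∈ F.filter (fun w : Orb MD4 => th * (w : V 2).2.2 = (e.1 + e.2 * om) * (2 : ℂ)),
      max 0 (6 / 5 - 3 / 2 * uval (w : V 2) p) ≤ if 2 / 3 * hgt p < 8 / 5 then 9 / 20 else 0 := by
  have h3 : Real.sqrt 3 ≠ 0 := by positivity
  have hn2 : ‖(2 : ℂ)‖ ^ 2 = 4 := by norm_num
  apply du_type hI hO hp two_ne_zero he (fun n _ => (∑ i, (n i : ℝ) ^ 2) / 4) (fun n => -(∑ i, (n i : ℝ) ^ 2) / 8) 1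
    (fun n => (∀ i, Even (n i)) ∨ ∀ i, Odd (n i))
  · intro n x y hn hiso
    have e1 : (th / 2 * ((x : ℂ) + y * om)) = (th * (((x : ℝ) : ℂ) + ((y : ℝ) : ℂ) * om)) / 2 := by
      push_cast
      ring
    have e2 : (th * (((x : ℝ) : ℂ) + ((y : ℝ) : ℂ) * om) / 2).re = -(3 / 2 * y) / 2 := by
      rw [← du_thre x y]
      simp
    have e3 : (th * (((x : ℝ) : ℂ) + ((y : ℝ) : ℂ) * om) / 2).im = Real.sqrt 3 * (x - y / 2) / 2 := by
      rw [← du_thim x y]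
      simp
    rw [e1, e2, norm_smul, mul_pow, norm_inv, inv_pow, hn2] at hiso
    have hyq : (y : ℝ) = (∑ i, (n i : ℝ) ^ 2) / 4 := by linarith
    refine ⟨hyq, ?_, ?_⟩
    · rw [e1, e3, hyq]
      field_simp
      ring
    · apply du_par4 n y
      have : ((∑ i, n i ^ 2 : ℤ) : ℝ) = ((4 * y : ℤ) : ℝ) := by
        push_cast
        rw [hyq]
        ring
      exact_mod_cast this
  · intro H hH
    have := h1 (2 / 3 * hgt p) (xc ((2 : ℂ) • p.2))
      (fun n => 2 / Real.sqrt 3 * (p.1 + inner ℂ ((2 : ℂ)⁻¹ • duB n) p.2).im - -(∑ i, (n i : ℝ) ^ 2) / 8)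
      (by linarith) H (fun g hg => (hH g hg).1) (fun g hg => (hH g hg).2)
    rw [hn2]
    simp only [one_mul]
    exact this

/-- the vectors belonging to infinity -/
theorem du_t0 {p : Pt 2} {e : ℤ × ℤ} (he : e ∈ duU) (F : Finset (Orb MD4))
    [DecidablePred fun w : Orb MD4 => (w : V 2) = ((e.1 + e.2 * om : ℂ)) • w0] :
    ∑ w ∈ F.filter (fun w : Orb MD4 => (w : V 2) = ((e.1 + e.2 * om : ℂ)) • w0),
      max 0 (6 / 5 - 3 / 2 * uval (w : V 2) p) ≤ max 0 (6 / 5 - 3 / 2 * (1 / hgt p)) := by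
  apply du_sum F _ _ (fun _ : Unit => max 0 (6 / 5 - 3 / 2 * (1 / hgt p))) (fun _ => True)
    (fun _ => ((e.1 + e.2 * om : ℂ)) • w0) (fun w : Orb MD4 => (w : V 2)) Subtype.val_injective
  · intro w hw
    refine ⟨(), trivial, ?_, hw⟩
    have h1 : ‖(e.1 + e.2 * om : ℂ)‖ ^ 2 = 1 := by
      rw [du_ns]
      exact_mod_cast duU_spec he
    rw [hw, uval_smul, h1, uval_w0, one_mul]
  · intro H _
    have h0 : 0 ≤ max 0 (6 / 5 - 3 / 2 * (1 / hgt p)) := le_max_left _ _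
    rw [Finset.sum_const, nsmul_eq_mul]
    have h1 : H.card ≤ 1 := by
      have := Finset.card_le_univ H
      simpa using this
    have h2 : (H.card : ℝ) ≤ 1 := by exact_mod_cast h1
    calc (H.card : ℝ) * max 0 (6 / 5 - 3 / 2 * (1 / hgt p)) ≤ 1 * max 0 (6 / 5 - 3 / 2 * (1 / hgt p)) :=
          mul_le_mul_of_nonneg_right h2 h0
      _ = _ := one_mul _

/-- vectors of large norm do not contribute -/
theorem du_big (hO : ST_DORB) {p : Pt 2} (hp : p ∈ SD 2) (hy : 3 / 2 ≤ hgt p) {w : V 2} (hw : w ∈ Orb MD4)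
    (hc : 7 ≤ ‖th * w.2.2‖ ^ 2) : 6 / 5 ≤ 3 / 2 * uval w p := by
  obtain ⟨-, hiso, -⟩ := hO.1 w hw
  have hc0 : th * w.2.2 ≠ 0 := by
    intro h
    rw [h, norm_zero] at hc
    norm_num at hc
  have hw0 : w.2.2 ≠ 0 := fun h => hc0 (by rw [h, mul_zero])
  have hcomp : th • w = (((th * w.2.2) * (w.1 / w.2.2), (th * w.2.2) • ((w.2.2)⁻¹ • w.2.1), th * w.2.2) : V 2) := by
    refine Prod.ext ?_ (Prod.ext ?_ ?_)
    · show th * w.1 = _
      field_simp
    · show th • w.2.1 = _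
      rw [smul_smul]
      congr 1
      field_simp
    · rfl
  have hiso2 : 2 * (w.1 / w.2.2).re + ‖(w.2.2)⁻¹ • w.2.1‖ ^ 2 = 0 := by
    have h6 := congrArg Complex.re hiso
    rw [herm_self_re, Complex.zero_re] at h6
    have h7 : (w.1 * conj w.2.2).re = ‖w.2.2‖ ^ 2 * (w.1 / w.2.2).re := by
      have e : w.1 * conj w.2.2 = ((‖w.2.2‖ ^ 2 : ℝ) : ℂ) * (w.1 / w.2.2) := by
        have := Complex.mul_conj' w.2.2
        push_cast
        rw [← this]
        field_simp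
      rw [e, Complex.re_ofReal_mul]
    have h8 : ‖w.2.2‖ ^ 2 ≠ 0 := pow_ne_zero 2 (norm_ne_zero_iff.2 hw0)
    rw [h7] at h6
    rw [norm_smul, mul_pow, norm_inv, inv_pow]
    field_simp
    linarith
  rw [du_form hp hcomp hiso2]
  have hH : 0 < hgt p := hp
  rw [le_div_iff₀ (by positivity)]
  have h9 : 0 ≤ ‖p.2 - (w.2.2)⁻¹ • w.2.1‖ ^ 2 := by positivity
  set r := ‖p.2 - (w.2.2)⁻¹ • w.2.1‖ ^ 2
  set t := (2 / Real.sqrt 3 * (p.1 + inner ℂ ((w.2.2)⁻¹ • w.2.1) p.2 + conj (w.1 / w.2.2)).im) ^ 2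
  have ht : 0 ≤ t := by positivity
  set N := ‖th * w.2.2‖ ^ 2
  have h10 : (2 / 3 * hgt p) ^ 2 ≤ (2 / 3 * r + 2 / 3 * hgt p) ^ 2 := by
    apply pow_le_pow_left₀ (by positivity)
    linarith
  have h11 : 7 * (3 * (2 / 3 * hgt p) ^ 2) ≤ N * (3 * (2 / 3 * r + 2 / 3 * hgt p) ^ 2 + 4 * t) := by
    apply mul_le_mul hc _ (by positivity) (by linarith)
    linarith
  refine le_trans ?_ h11
  nlinarith

theorem st_DUP (hI : ST_DISO) (hO : ST_DORB) (h1 : ST_T1) (h3 : ST_T3) (h4 : ST_T4) : ST_DUP := by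
  classical
  intro p hp hy
  have hH : 0 < hgt p := hp
  have hf : ∀ w : Orb MD4, psD4 (1 / uval (w : V 2) p) = max 0 (6 / 5 - 3 / 2 * uval (w : V 2) p) := by
    intro w
    have hu := uval_pos w.2 hp
    unfold psD4
    congr 2
    field_simp
  -- the real bound for finite sums
  have key : ∀ F : Finset (Orb MD4), ∑ w ∈ F, max 0 (6 / 5 - 3 / 2 * uval (w : V 2) p) ≤ 45 := by
    intro F
    have hle : ∀ w : Orb MD4, max 0 (6 / 5 - 3 / 2 * uval (w : V 2) p) ≤ ∑ e ∈ duU,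
        ((if (w : V 2) = ((e.1 + e.2 * om : ℂ)) • w0 then max 0 (6 / 5 - 3 / 2 * uval (w : V 2) p) else 0) +
        (if th * (w : V 2).2.2 = (e.1 + e.2 * om) * (1 : ℂ) then max 0 (6 / 5 - 3 / 2 * uval (w : V 2) p) else 0) +
        (if th * (w : V 2).2.2 = (e.1 + e.2 * om) * th then max 0 (6 / 5 - 3 / 2 * uval (w : V 2) p) else 0) +
        (if th * (w : V 2).2.2 = (e.1 + e.2 * om) * (2 : ℂ) then max 0 (6 / 5 - 3 / 2 * uval (w : V 2) p) else 0)) := by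
      intro w
      have h0 : 0 ≤ max 0 (6 / 5 - 3 / 2 * uval (w : V 2) p) := le_max_left _ _
      have hnn : ∀ e ∈ duU, 0 ≤
        ((if (w : V 2) = ((e.1 + e.2 * om : ℂ)) • w0 then max 0 (6 / 5 - 3 / 2 * uval (w : V 2) p) else 0) +
        (if th * (w : V 2).2.2 = (e.1 + e.2 * om) * (1 : ℂ) then max 0 (6 / 5 - 3 / 2 * uval (w : V 2) p) else 0) +
        (if th * (w : V 2).2.2 = (e.1 + e.2 * om) * th then max 0 (6 / 5 - 3 / 2 * uval (w : V 2) p) else 0) +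
        (if th * (w : V 2).2.2 = (e.1 + e.2 * om) * (2 : ℂ) then max 0 (6 / 5 - 3 / 2 * uval (w : V 2) p) else 0)) := by
        intro e _
        split_ifs <;> linarith
      have hone : ∀ e ∈ duU, ((w : V 2) = ((e.1 + e.2 * om : ℂ)) • w0 ∨ th * (w : V 2).2.2 = (e.1 + e.2 * om) * (1 : ℂ) ∨
          th * (w : V 2).2.2 = (e.1 + e.2 * om) * th ∨ th * (w : V 2).2.2 = (e.1 + e.2 * om) * (2 : ℂ)) →
          max 0 (6 / 5 - 3 / 2 * uval (w : V 2) p) ≤ ∑ e ∈ duU,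
        ((if (w : V 2) = ((e.1 + e.2 * om : ℂ)) • w0 then max 0 (6 / 5 - 3 / 2 * uval (w : V 2) p) else 0) +
        (if th * (w : V 2).2.2 = (e.1 + e.2 * om) * (1 : ℂ) then max 0 (6 / 5 - 3 / 2 * uval (w : V 2) p) else 0) +
        (if th * (w : V 2).2.2 = (e.1 + e.2 * om) * th then max 0 (6 / 5 - 3 / 2 * uval (w : V 2) p) else 0) +
        (if th * (w : V 2).2.2 = (e.1 + e.2 * om) * (2 : ℂ) then max 0 (6 / 5 - 3 / 2 * uval (w : V 2) p) else 0)) := by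
        intro e he hcase
        refine le_trans ?_ (Finset.single_le_sum hnn he)
        rcases hcase with h | h | h | h
        · rw [if_pos h]
          split_ifs <;> linarith
        · rw [if_pos h]
          split_ifs <;> linarith
        · rw [if_pos h]
          split_ifs <;> linarith
        · rw [if_pos h]
          split_ifs <;> linarith
      obtain ⟨⟨-, -, hE⟩, -, hcz⟩ := hO.1 (w : V 2) w.2
      by_cases hz : (w : V 2).2.2 = 0
      · obtain ⟨s, ⟨a, b, hs⟩, hs1, hws⟩ := hcz hz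
        have hab : a ^ 2 - a * b + b ^ 2 = 1 := by
          have := du_ns a b
          rw [← hs, hs1, one_pow] at this
          exact_mod_cast this.symm
        apply hone (a, b) (duU_mem hab)
        left
        rw [hws, hs]
      · obtain ⟨a, b, hab⟩ := hE
        have hab' : th * (w : V 2).2.2 = a + b * om := hab
        have hne : th * (w : V 2).2.2 ≠ 0 := mul_ne_zero du_th_ne hz
        have hn := du_ns a b
        rw [← hab'] at hn
        by_cases h7 : a ^ 2 - a * b + b ^ 2 < 7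
        · have hpos : 0 < a ^ 2 - a * b + b ^ 2 := by
            have h5 : 0 < ‖th * (w : V 2).2.2‖ ^ 2 := by positivity
            rw [hn] at h5
            exact_mod_cast h5
          obtain ⟨e, he, hcase⟩ := du_small hpos h7
          apply hone e he
          right
          rcases hcase with ⟨ha, hb⟩ | ⟨ha, hb⟩ | ⟨ha, hb⟩
          · left
            rw [hab', ha, hb, mul_one]
          · right
            left
            rw [hab', ha, hb, du_th]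
            push_cast
            linear_combination (-(2 * e.2 : ℂ)) * du_om2
          · right
            right
            rw [hab', ha, hb]
            push_cast
            ring
        · have hbig : 6 / 5 ≤ 3 / 2 * uval (w : V 2) p := by
            apply du_big hO hp hy w.2
            rw [hn]
            have : 7 ≤ a ^ 2 - a * b + b ^ 2 := not_lt.1 h7
            exact_mod_cast this
          rw [max_eq_left (by linarith)]
          rw [max_eq_left (by linarith)] at hnn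
          exact Finset.sum_nonneg hnn
    have hsum : ∑ w ∈ F, max 0 (6 / 5 - 3 / 2 * uval (w : V 2) p) ≤ ∑ e ∈ duU,
        (max 0 (6 / 5 - 3 / 2 * (1 / hgt p)) + 594 / 125 + (if 2 / 3 * hgt p < 11 / 5 then 8 / 5 else 0) +
          (if 2 / 3 * hgt p < 8 / 5 then 9 / 20 else 0)) := by
      refine (Finset.sum_le_sum fun w _ => hle w).trans ?_
      rw [Finset.sum_comm]
      apply Finset.sum_le_sum
      intro e he
      rw [Finset.sum_add_distrib, Finset.sum_add_distrib, Finset.sum_add_distrib, ← Finset.sum_filter,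
        ← Finset.sum_filter, ← Finset.sum_filter, ← Finset.sum_filter]
      exact add_le_add (add_le_add (add_le_add (du_t0 he F) (du_t1 hI hO h1 hp hy he F)) (du_t3 hI hO h3 hp hy he F))
        (du_t4 hI hO h4 hp hy he F)
    refine hsum.trans ?_
    rw [Finset.sum_const]
    have hcard : duU.card = 6 := by decide
    rw [hcard, nsmul_eq_mul]
    push_cast
    have hb0 : max 0 (6 / 5 - 3 / 2 * (1 / hgt p)) ≤ 6 / 5 := by
      apply max_le (by norm_num)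
      have : 0 < 1 / hgt p := by positivity
      linarith
    by_cases hy1 : 2 / 3 * hgt p < 8 / 5
    · rw [if_pos hy1, if_pos (by linarith)]
      have hb1 : max 0 (6 / 5 - 3 / 2 * (1 / hgt p)) ≤ 23 / 40 := by
        apply max_le (by norm_num)
        have : 5 / 12 ≤ 1 / hgt p := by
          rw [le_div_iff₀ hH]
          linarith
        linarith
      linarith
    · rw [if_neg hy1]
      by_cases hy2 : 2 / 3 * hgt p < 11 / 5
      · rw [if_pos hy2]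
        have hb1 : max 0 (6 / 5 - 3 / 2 * (1 / hgt p)) ≤ 6 / 5 - 5 / 11 := by
          apply max_le (by norm_num)
          have : 10 / 33 ≤ 1 / hgt p := by
            rw [le_div_iff₀ hH]
            linarith
          linarith
        linarith
      · rw [if_neg hy2]
        linarith
  rw [ENNReal.tsum_eq_iSup_sum]
  apply iSup_le
  intro F
  have e : ∑ w ∈ F, ENNReal.ofReal (psD4 (1 / uval (w : V 2) p)) =
      ENNReal.ofReal (∑ w ∈ F, max 0 (6 / 5 - 3 / 2 * uval (w : V 2) p)) := by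
    rw [ENNReal.ofReal_sum_of_nonneg (fun w _ => le_max_left _ _)]
    apply Finset.sum_congr rfl
    intro w _
    rw [hf w]
  rw [e]
  exact ENNReal.ofReal_le_ofReal (key F)

end Pool.Agent.Helper19.Un
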